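import Pool.Agent.SOR.Stmts2

/-!
# Squad SOR, row OOA: the sum over the orbits of `⟨a, a₃⟩`
-/

open scoped BigOperators

set_option autoImplicit false

noncomputable section

namespace Pool.Agent.SOR.H62

section coc

variable {Γ Y : Type} [Group Γ] {R : Subring ℚ} {i : Γ →* Equiv.Perm Y} {ρ : Γ → Y → ℚ}

theorem im (g h : Γ) (y : Y) : i (g * h) y = i g (i h y) := by
  rw [map_mul]
  rfl

theorem iinv (g : Γ) (y : Y) : i g (i g⁻¹ y) = y := by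
  rw [← im, mul_inv_cancel, map_one]
  rfl

theorem iinv' (g : Γ) (y : Y) : i g⁻¹ (i g y) = y := by
  rw [← im, inv_mul_cancel, map_one]
  rfl

theorem cr_one (h : Cr R i ρ) (y : Y) : ρ 1 y ∈ R := by
  have h1 := h 1 1 y
  rw [one_mul, map_one] at h1
  have h2 : ρ 1 ((1 : Equiv.Perm Y) y) = ρ 1 y := rfl
  rw [h2] at h1
  have h3 : ρ 1 y = -(ρ 1 y - ρ 1 y - ρ 1 y) := by ring
  rw [h3]
  exact R.neg_mem h1

theorem cr_inv (h : Cr R i ρ) (g : Γ) (y : Y) : ρ g⁻¹ (i g y) + ρ g y ∈ R := by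
  have h1 := h g⁻¹ g y
  rw [inv_mul_cancel] at h1
  have h3 : ρ g⁻¹ (i g y) + ρ g y = ρ 1 y - (ρ 1 y - ρ g⁻¹ (i g y) - ρ g y) := by ring
  rw [h3]
  exact R.sub_mem (cr_one h y) h1

theorem cr_inv' (h : Cr R i ρ) (g : Γ) (y : Y) : ρ g (i g⁻¹ y) + ρ g⁻¹ y ∈ R := by
  have h1 := cr_inv h g⁻¹ y
  rwa [inv_inv] at h1

theorem cr_zpow (h : Cr R i ρ) (g : Γ) {μ : Y → ℚ} (hinv : ∀ y, μ (i g y) = μ y)
    (hμ : ∀ y, ρ g y - μ y ∈ R) (k : ℤ) : ∀ y, ρ (g ^ k) y - k * μ y ∈ R := by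
  induction k using Int.induction_on with
  | zero =>
    intro y
    rw [zpow_zero]
    have : ρ 1 y - ((0 : ℤ) : ℚ) * μ y = ρ 1 y := by push_cast; ring
    rw [this]
    exact cr_one h y
  | succ k ih =>
    intro y
    have h1 := h (g ^ (k : ℤ)) g y
    have h2 := ih (i g y)
    rw [hinv] at h2
    rw [zpow_add_one]
    have h3 : ρ (g ^ (k : ℤ) * g) y - (((k : ℤ) + 1 : ℤ) : ℚ) * μ y =
        (ρ (g ^ (k : ℤ) * g) y - ρ (g ^ (k : ℤ)) (i g y) - ρ g y) +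
        (ρ (g ^ (k : ℤ)) (i g y) - ((k : ℤ) : ℚ) * μ y) + (ρ g y - μ y) := by
      push_cast
      ring
    rw [h3]
    exact R.add_mem (R.add_mem h1 h2) (hμ y)
  | pred k ih =>
    intro y
    have e1 : i g (i g⁻¹ y) = y := iinv g y
    have e2 : μ (i g⁻¹ y) = μ y := by
      rw [← hinv (i g⁻¹ y), e1]
    have h1 := h (g ^ (-(k : ℤ) - 1)) g (i g⁻¹ y)
    rw [← zpow_add_one, sub_add_cancel, e1] at h1
    have h2 := ih (i g⁻¹ y)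
    have h4 := hμ (i g⁻¹ y)
    rw [e2] at h2 h4
    have h3 : ρ (g ^ (-(k : ℤ) - 1)) y - ((-(k : ℤ) - 1 : ℤ) : ℚ) * μ y =
        (ρ (g ^ (-(k : ℤ))) (i g⁻¹ y) - ((-(k : ℤ) : ℤ) : ℚ) * μ y) -
        (ρ g (i g⁻¹ y) - μ y) -
        (ρ (g ^ (-(k : ℤ))) (i g⁻¹ y) - ρ (g ^ (-(k : ℤ) - 1)) y - ρ g (i g⁻¹ y)) := by
      push_cast
      ring
    rw [h3]
    exact R.sub_mem (R.sub_mem h2 h4) h1

/-- conjugation does not change the values at fixed points -/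
theorem fixc (h : Cr R i ρ) (b g : Γ) {w : Y} (hg : i g w = w) :
    ρ (b⁻¹ * g * b) (i b⁻¹ w) - ρ g w ∈ R := by
  have h1 := h b⁻¹ (g * b) (i b⁻¹ w)
  have h2 := h g b (i b⁻¹ w)
  have h3 := cr_inv' h b w
  rw [im, iinv, hg, ← mul_assoc] at h1
  rw [iinv] at h2
  have h4 : ρ (b⁻¹ * g * b) (i b⁻¹ w) - ρ g w =
      (ρ (b⁻¹ * g * b) (i b⁻¹ w) - ρ b⁻¹ w - ρ (g * b) (i b⁻¹ w)) +
      (ρ (g * b) (i b⁻¹ w) - ρ g w - ρ b (i b⁻¹ w)) + (ρ b (i b⁻¹ w) + ρ b⁻¹ w) := by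
    ring
  rw [h4]
  exact R.add_mem (R.add_mem h1 h2) h3

/-- the conjugate cocycle -/
theorem cr_conj (h : Cr R i ρ) (b : Γ) : Cr R i (fun g w => ρ (b⁻¹ * g * b) (i b⁻¹ w)) := by
  intro g k w
  have h1 := h (b⁻¹ * g * b) (b⁻¹ * k * b) (i b⁻¹ w)
  have e1 : b⁻¹ * g * b * (b⁻¹ * k * b) = b⁻¹ * (g * k) * b := by group
  have e2 : i (b⁻¹ * k * b) (i b⁻¹ w) = i b⁻¹ (i k w) := by
    rw [im, im, iinv]
  rw [e1, e2] at h1
  exact h1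

end coc

section av

variable {Y : Type}

theorem av_comm {s t : Equiv.Perm Y} (hst : s * t = t * s) (f : Y → ℚ) (y : Y) :
    av s t f y = av t s f y := by
  unfold av
  rw [Finset.sum_comm]
  have hc : Commute s t := hst
  have h1 : ∀ k l : ℕ, s ^ k * t ^ l = t ^ l * s ^ k := fun k l =>
    (hc.pow_pow k l).eq
  rw [mul_comm (orderOf s : ℚ)]
  refine congrArg₂ _ (Finset.sum_congr rfl fun l _ => Finset.sum_congr rfl fun k _ => ?_) rfl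
  rw [h1]

end av

section rel

variable {Γ : Type} [Group Γ] (D : Bd Γ)

theorem a3B : D.a3 * D.B = D.B * D.a := by
  unfold Bd.a3
  rw [mul_assoc, D.r3]
  group

theorem Bia3 : D.B⁻¹ * D.a3 = D.a * D.B⁻¹ := by
  have h := a3B D
  calc D.B⁻¹ * D.a3 = D.B⁻¹ * (D.a3 * D.B) * D.B⁻¹ := by group
    _ = D.B⁻¹ * (D.B * D.a) * D.B⁻¹ := by rw [h]
    _ = D.a * D.B⁻¹ := by group

theorem BiA : D.B⁻¹ * D.A = D.A' * D.B⁻¹ := by
  unfold Bd.A'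
  group

theorem Aa3 : D.A * D.a3 = D.a := by
  unfold Bd.a3
  group

theorem a3A : D.a3 * D.A = D.a := by
  unfold Bd.a3
  rw [mul_assoc, D.r2]
  group

theorem aa3 : D.a * D.a3 = D.a3 * D.a := by
  have h : D.a * D.A⁻¹ = D.A⁻¹ * D.a := by
    calc D.a * D.A⁻¹ = D.A⁻¹ * (D.A * D.a) * D.A⁻¹ := by group
      _ = D.A⁻¹ * (D.a * D.A) * D.A⁻¹ := by rw [D.r2]
      _ = D.A⁻¹ * D.a := by group
  unfold Bd.a3
  rw [← mul_assoc, h]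

theorem BaB : D.B⁻¹ * D.a * D.B = D.A' * D.a := by
  unfold Bd.A'
  rw [mul_assoc, D.r3]
  group

theorem aA' : D.a * D.A' = D.A' * D.a := by
  have h1 := Bia3 D
  calc D.a * D.A' = (D.a * D.B⁻¹) * D.A * D.B := by unfold Bd.A'; group
    _ = (D.B⁻¹ * D.a3) * D.A * D.B := by rw [h1]
    _ = D.B⁻¹ * (D.a3 * D.A) * D.B := by group
    _ = D.B⁻¹ * D.a * D.B := by rw [a3A]
    _ = D.A' * D.a := BaB D

end rel

theorem ooa (ave : AveStmt) (hol : HolStmt) (ind : IndStmt) : OoaStmt := by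
  intro Γ Y _ _ R D i ρ₁ ρ₂ hρ₁ hρ₂ μ₁ μ₂ m1a m1A m1A' m2a m2A m2A' hm1 hm2 ξ Ψ hξa hξ hΨa hΨ η ζ
    E1 E2
  have mc : ∀ {μ : Y → ℚ}, (∀ y, μ (i D.a y) = μ y) → (∀ y, μ (i D.A y) = μ y) →
      ∀ y, μ (i D.a3 y) = μ y := by
    intro μ h1 h2 y
    have h3 : i D.a y = i D.A (i D.a3 y) := by rw [← im, Aa3]
    rw [← h2 (i D.a3 y), ← h3, h1]
  have nc3 : ∀ {μ : Y → ℚ}, (∀ y, μ (i D.a y) = μ y) →
      ∀ y, μ (i D.B⁻¹ (i D.a3 y)) = μ (i D.B⁻¹ y) := by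
    intro μ h1 y
    rw [← im, Bia3, im, h1]
  have ncA : ∀ {μ : Y → ℚ}, (∀ y, μ (i D.A' y) = μ y) →
      ∀ y, μ (i D.B⁻¹ (i D.A y)) = μ (i D.B⁻¹ y) := by
    intro μ h1 y
    rw [← im, BiA, im, h1]
  have nca : ∀ {μ : Y → ℚ}, (∀ y, μ (i D.a y) = μ y) → (∀ y, μ (i D.A' y) = μ y) →
      ∀ y, μ (i D.B⁻¹ (i D.a y)) = μ (i D.B⁻¹ y) := by
    intro μ h1 h2 y
    have h3 : i D.a y = i D.A (i D.a3 y) := by rw [← im, Aa3]
    rw [h3, ncA h2, nc3 h1]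
  have m13 := mc m1a m1A
  have m23 := mc m2a m2A
  have n13 := nc3 m1a
  have n23 := nc3 m2a
  have n1a := nca m1a m1A'
  have n2a := nca m2a m2A'
  have hst : i D.a * i D.a3 = i D.a3 * i D.a := by
    rw [← map_mul, ← map_mul, aa3]
  have hts : i D.a3 * i D.a = i D.a * i D.a3 := hst.symm
  have ic : ∀ y, i D.a (i D.a3 y) = i D.a3 (i D.a y) := by
    intro y
    rw [← im, ← im, aa3]
  obtain ⟨av1, av2, av3, -, av5, av6, av7⟩ := ave Y (i D.a) (i D.a3) hst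
  obtain ⟨bv1, bv2, -, -, bv5, bv6, bv7⟩ := ave Y (i D.a3) (i D.a) hts
  -- the function `χ`
  obtain ⟨χ, hχ⟩ : ∃ χ : Y → ℚ, χ = fun w => Ψ (i D.B⁻¹ w) := ⟨_, rfl⟩
  have hχ' : ∀ w, χ w = Ψ (i D.B⁻¹ w) := fun w => by rw [hχ]
  have hχ3 : ∀ w, χ (i D.a3 w) = χ w := fun w => by rw [hχ', hχ', nc3 hΨa]
  obtain ⟨K, hK⟩ : ∃ K : Y → ℚ, K = av (i D.a) (i D.a3) χ := ⟨_, rfl⟩
  obtain ⟨X, hX⟩ : ∃ X : Y → ℚ, X = av (i D.a) (i D.a3) ξ := ⟨_, rfl⟩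
  have hKa : ∀ y, K (i D.a y) = K y := fun y => by rw [hK]; exact (av1 χ y).1
  have hK3 : ∀ y, K (i D.a3 y) = K y := fun y => by rw [hK]; exact (av1 χ y).2
  have hXa : ∀ y, X (i D.a y) = X y := fun y => by rw [hX]; exact (av1 ξ y).1
  have hX3 : ∀ y, X (i D.a3 y) = X y := fun y => by rw [hX]; exact (av1 ξ y).2
  -- the two exact pairs
  have F2 : Ex R i ρ₂ D.a D.a3 μ₂ (fun y => μ₂ y - X y) := by
    have h1 := hol Γ Y R i ρ₂ hρ₂ D.a D.a3 (aa3 D) μ₂ (fun y => μ₂ y - ξ (i D.a3 y)) m2a m23 hm2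
      (fun y => by
        change μ₂ (i D.a y) - ξ (i D.a3 (i D.a y)) = _
        rw [m2a, ← ic, hξa])
      (fun y => by
        have e1 := hρ₂ D.A⁻¹ D.a y
        have e2 := cr_inv' hρ₂ D.A (i D.a y)
        have e3 := hξ (i D.a3 y)
        have e4 : i D.A⁻¹ (i D.a y) = i D.a3 y := by rw [← im]; rfl
        have e5 : D.A⁻¹ * D.a = D.a3 := rfl
        rw [e5] at e1
        rw [e4] at e2
        change ρ₂ D.a3 y - (μ₂ y - ξ (i D.a3 y)) ∈ R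
        have e6 : ρ₂ D.a3 y - (μ₂ y - ξ (i D.a3 y)) =
            (ρ₂ D.a3 y - ρ₂ D.A⁻¹ (i D.a y) - ρ₂ D.a y) + (ρ₂ D.A (i D.a3 y) + ρ₂ D.A⁻¹ (i D.a y)) +
            (ρ₂ D.a y - μ₂ y) - (ρ₂ D.A (i D.a3 y) - ξ (i D.a3 y)) := by ring
        rw [e6]
        exact R.sub_mem (R.add_mem (R.add_mem e1 e2) (hm2 y)) e3)
    have h2 : av (i D.a) (i D.a3) (fun y => μ₂ y - ξ (i D.a3 y)) = fun y => μ₂ y - X y := by
      funext y
      have e1 : (fun y => μ₂ y - ξ (i D.a3 y)) = fun y => μ₂ y + (fun z => - ξ (i D.a3 z)) y := by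
        funext y
        ring
      rw [e1, av5, av6 (fun z => ξ (i D.a3 z)), (av7 ξ y).2, av2 μ₂ m2a m23, hX]
      ring
    rw [h2] at h1
    exact h1
  have F1' : Ex R i (fun g w => ρ₁ (D.B⁻¹ * g * D.B) (i D.B⁻¹ w)) D.a3 D.a
      (fun y => μ₁ (i D.B⁻¹ y)) (fun y => μ₁ (i D.B⁻¹ y) - K y) := by
    have h1 := hol Γ Y R i (fun g w => ρ₁ (D.B⁻¹ * g * D.B) (i D.B⁻¹ w)) (cr_conj hρ₁ D.B) D.a3 D.a
      (aa3 D).symm (fun y => μ₁ (i D.B⁻¹ y)) (fun w => μ₁ (i D.B⁻¹ w) - χ (i D.A w)) n13 n1a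
      (fun y => by
        have e1 : D.B⁻¹ * D.a3 * D.B = D.a := by
          rw [Bia3]
          group
        change ρ₁ (D.B⁻¹ * D.a3 * D.B) (i D.B⁻¹ y) - μ₁ (i D.B⁻¹ y) ∈ R
        rw [e1]
        exact hm1 _)
      (fun y => by
        have e1 : i D.A (i D.a3 y) = i D.a3 (i D.A y) := by
          rw [← im, ← im, Aa3, a3A]
        change μ₁ (i D.B⁻¹ (i D.a3 y)) - χ (i D.A (i D.a3 y)) = _
        rw [n13, e1, hχ3])
      (fun y => by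
        change ρ₁ (D.B⁻¹ * D.a * D.B) (i D.B⁻¹ y) - (μ₁ (i D.B⁻¹ y) - χ (i D.A y)) ∈ R
        obtain ⟨z, hz⟩ : ∃ z, z = i D.B⁻¹ y := ⟨_, rfl⟩
        have e0 : χ (i D.A y) = Ψ (i D.A' z) := by
          rw [hχ', ← im, BiA, im, hz]
        rw [BaB, ← aA', e0, ← hz]
        have e1 := hρ₁ D.a D.A' z
        have e2 := hm1 (i D.A' z)
        rw [m1A'] at e2
        have e3 := cr_inv hρ₁ D.A' z
        have e4 := hΨ (i D.A' z)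
        have e6 : ρ₁ (D.a * D.A') z - (μ₁ z - Ψ (i D.A' z)) =
            (ρ₁ (D.a * D.A') z - ρ₁ D.a (i D.A' z) - ρ₁ D.A' z) + (ρ₁ D.a (i D.A' z) - μ₁ z) +
            (ρ₁ D.A'⁻¹ (i D.A' z) + ρ₁ D.A' z) - (ρ₁ D.A'⁻¹ (i D.A' z) - Ψ (i D.A' z)) := by ring
        rw [e6]
        exact R.sub_mem (R.add_mem (R.add_mem e1 e2) e3) e4)
    have h2 : av (i D.a3) (i D.a) (fun w => μ₁ (i D.B⁻¹ w) - χ (i D.A w)) =
        fun y => μ₁ (i D.B⁻¹ y) - K y := by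
      funext y
      have e1 : (fun w => μ₁ (i D.B⁻¹ w) - χ (i D.A w)) =
          fun y => (fun z => μ₁ (i D.B⁻¹ z)) y + (fun z => - χ (i D.A z)) y := by
        funext y
        ring
      have e2 : av (i D.a3) (i D.a) (fun z => χ (i D.A z)) y = K y := by
        have e3 : (fun z => (fun z => χ (i D.A z)) (i D.a3 z)) = fun z => χ (i D.a z) := by
          funext z
          change χ (i D.A (i D.a3 z)) = _
          rw [← im, Aa3]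
        rw [← (bv7 (fun z => χ (i D.A z)) y).1, e3, (bv7 χ y).2, hK, av_comm hst]
      rw [e1, bv5, bv6 (fun z => χ (i D.A z)), e2, bv2 _ n13 n1a]
      ring
    rw [h2] at h1
    exact h1
  -- the numbers `η₀` and `ζ₀`
  obtain ⟨η₀, hη₀⟩ : ∃ η₀ : Y → ℚ, ∀ y, η₀ y = μ₁ y - μ₁ (i D.B⁻¹ y) + K y := ⟨_, fun _ => rfl⟩
  obtain ⟨ζ₀, hζ₀⟩ : ∃ ζ₀ : Y → ℚ, ∀ y, ζ₀ y = μ₂ (i D.B⁻¹ y) - μ₂ y + X y := ⟨_, fun _ => rfl⟩
  have F1 : ∀ y (k l : ℤ), i (D.a ^ k * D.a3 ^ l) y = y →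
      ρ₁ (D.a ^ k * D.a3 ^ l) y - k * (μ₁ y - η₀ y) - l * μ₁ (i D.B⁻¹ y) ∈ R := by
    intro y k l hy
    have hc : D.a ^ k * D.a3 ^ l = D.a3 ^ l * D.a ^ k :=
      ((show Commute D.a D.a3 from aa3 D).zpow_zpow k l).eq
    have h1 := F1'.ex y l k (by rw [← hc]; exact hy)
    rw [← hc] at h1
    have h2 := fixc hρ₁ D.B _ hy
    have e6 : ρ₁ (D.a ^ k * D.a3 ^ l) y - k * (μ₁ y - η₀ y) - l * μ₁ (i D.B⁻¹ y) =
        (ρ₁ (D.B⁻¹ * (D.a ^ k * D.a3 ^ l) * D.B) (i D.B⁻¹ y) - l * μ₁ (i D.B⁻¹ y) -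
          k * (μ₁ (i D.B⁻¹ y) - K y)) -
        (ρ₁ (D.B⁻¹ * (D.a ^ k * D.a3 ^ l) * D.B) (i D.B⁻¹ y) - ρ₁ (D.a ^ k * D.a3 ^ l) y) := by
      rw [hη₀]
      ring
    rw [e6]
    exact R.sub_mem h1 h2
  have hηa : ∀ y, η (i D.a y) = η y := by
    intro y
    have := E1.ps y
    rw [m1a] at this
    linarith
  have hη3 : ∀ y, η (i D.a3 y) = η y := by
    intro y
    have := E1.pt y
    rw [m13] at this
    linarith
  have hζa : ∀ y, ζ (i D.a y) = ζ y := by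
    intro y
    have := E2.qs y
    rw [n2a] at this
    linarith
  have hζ3 : ∀ y, ζ (i D.a3 y) = ζ y := by
    intro y
    have := E2.qt y
    rw [n23] at this
    linarith
  have hη₀a : ∀ y, η₀ (i D.a y) = η₀ y := fun y => by rw [hη₀, hη₀, m1a, n1a, hKa]
  have hη₀3 : ∀ y, η₀ (i D.a3 y) = η₀ y := fun y => by rw [hη₀, hη₀, m13, n13, hK3]
  have hζ₀a : ∀ y, ζ₀ (i D.a y) = ζ₀ y := fun y => by rw [hζ₀, hζ₀, m2a, n2a, hXa]
  have hζ₀3 : ∀ y, ζ₀ (i D.a3 y) = ζ₀ y := fun y => by rw [hζ₀, hζ₀, m23, n23, hX3]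
  have I1 : ∑ y, (η y - η₀ y) * ζ y ∈ R := by
    refine ind Y R (i D.a) (i D.a3) hst (fun y => η y - η₀ y) ζ
      (fun y => by
        change η (i D.a y) - η₀ (i D.a y) = _
        rw [hηa, hη₀a])
      (fun y => by
        change η (i D.a3 y) - η₀ (i D.a3 y) = _
        rw [hη3, hη₀3]) hζa hζ3 ?_ ?_
    · intro y k l hy
      have hy' : i (D.a ^ k * D.a3 ^ l) y = y := by
        rw [map_mul, map_zpow, map_zpow]
        exact hy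
      have h1 := E1.ex y k l hy'
      have h2 := F1 y k l hy'
      change (k : ℚ) * (η y - η₀ y) ∈ R
      have e : (k : ℚ) * (η y - η₀ y) =
          (ρ₁ (D.a ^ k * D.a3 ^ l) y - k * (μ₁ y - η y) - l * μ₁ (i D.B⁻¹ y)) -
          (ρ₁ (D.a ^ k * D.a3 ^ l) y - k * (μ₁ y - η₀ y) - l * μ₁ (i D.B⁻¹ y)) := by ring
      rw [e]
      exact R.sub_mem h1 h2
    · intro y l hy
      have hy' : i (D.a3 ^ l) y = y := by
        rw [map_zpow]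
        exact hy
      have hy2 : i (D.a ^ (0 : ℤ) * D.a3 ^ l) y = y := by
        rw [zpow_zero, one_mul]
        exact hy'
      have h1 := E2.ex y 0 l hy2
      rw [zpow_zero, one_mul] at h1
      have hcj : D.B⁻¹ * D.a3 ^ l * D.B = D.a ^ l := by
        have h3 := conj_zpow (i := l) (a := D.B⁻¹) (b := D.a3)
        rw [inv_inv] at h3
        rw [← h3, Bia3]
        group
      have h2 := fixc hρ₂ D.B _ hy'
      rw [hcj] at h2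
      have h3 := cr_zpow hρ₂ D.a m2a hm2 l (i D.B⁻¹ y)
      have e : (l : ℚ) * ζ y =
          (ρ₂ (D.a3 ^ l) y - ((0 : ℤ) : ℚ) * μ₂ y - l * (μ₂ (i D.B⁻¹ y) - ζ y)) +
          (ρ₂ (D.a ^ l) (i D.B⁻¹ y) - ρ₂ (D.a3 ^ l) y) -
          (ρ₂ (D.a ^ l) (i D.B⁻¹ y) - l * μ₂ (i D.B⁻¹ y)) := by
        push_cast
        ring
      rw [e]
      exact R.sub_mem (R.add_mem h1 h2) h3
  have I2 : ∑ y, (ζ y - ζ₀ y) * η₀ y ∈ R := by
    refine ind Y R (i D.a3) (i D.a) hts (fun y => ζ y - ζ₀ y) η₀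
      (fun y => by
        change ζ (i D.a3 y) - ζ₀ (i D.a3 y) = _
        rw [hζ3, hζ₀3])
      (fun y => by
        change ζ (i D.a y) - ζ₀ (i D.a y) = _
        rw [hζa, hζ₀a]) hη₀3 hη₀a ?_ ?_
    · intro y k l hy
      have hc : D.a ^ l * D.a3 ^ k = D.a3 ^ k * D.a ^ l :=
        ((show Commute D.a D.a3 from aa3 D).zpow_zpow l k).eq
      have hy' : i (D.a ^ l * D.a3 ^ k) y = y := by
        rw [hc, map_mul, map_zpow, map_zpow]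
        exact hy
      have h1 := E2.ex y l k hy'
      have h2 := F2.ex y l k hy'
      change (k : ℚ) * (ζ y - ζ₀ y) ∈ R
      have e : (k : ℚ) * (ζ y - ζ₀ y) =
          (ρ₂ (D.a ^ l * D.a3 ^ k) y - l * μ₂ y - k * (μ₂ (i D.B⁻¹ y) - ζ y)) -
          (ρ₂ (D.a ^ l * D.a3 ^ k) y - l * μ₂ y - k * (μ₂ y - X y)) := by
        rw [hζ₀]
        ring
      rw [e]
      exact R.sub_mem h1 h2
    · intro y l hy
      have hy' : i (D.a ^ l * D.a3 ^ (0 : ℤ)) y = y := by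
        rw [zpow_zero, mul_one, map_zpow]
        exact hy
      have h1 := F1 y l 0 hy'
      rw [zpow_zero, mul_one] at h1
      have h3 := cr_zpow hρ₁ D.a m1a hm1 l y
      have e : (l : ℚ) * η₀ y =
          (ρ₁ (D.a ^ l) y - l * (μ₁ y - η₀ y) - ((0 : ℤ) : ℚ) * μ₁ (i D.B⁻¹ y)) -
          (ρ₁ (D.a ^ l) y - l * μ₁ y) := by
        push_cast
        ring
      rw [e]
      exact R.sub_mem h1 h3
  -- the sums
  have S1 : ∑ y, (μ₂ (i D.B y) - μ₂ y - ξ (i D.B y)) * Ψ y =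
      ∑ y, (μ₂ y - μ₂ (i D.B⁻¹ y) - X y) * K y := by
    rw [← Equiv.sum_comp (i D.B⁻¹)]
    have e1 : ∀ y, (μ₂ (i D.B (i D.B⁻¹ y)) - μ₂ (i D.B⁻¹ y) - ξ (i D.B (i D.B⁻¹ y))) *
        Ψ (i D.B⁻¹ y) = (fun z => μ₂ z - μ₂ (i D.B⁻¹ z) - ξ z) y * χ y := by
      intro y
      rw [iinv, hχ']
    rw [Finset.sum_congr rfl fun y _ => e1 y]
    rw [av3 (fun z => μ₂ z - μ₂ (i D.B⁻¹ z) - ξ z) χ
      (fun y => by
        change μ₂ (i D.a y) - μ₂ (i D.B⁻¹ (i D.a y)) - ξ (i D.a y) = _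
        rw [m2a, n2a, hξa]) hχ3]
    refine Finset.sum_congr rfl fun y _ => ?_
    have e2 : (fun z => μ₂ z - μ₂ (i D.B⁻¹ z) - ξ z) =
        fun y => (fun z => μ₂ z - μ₂ (i D.B⁻¹ z)) y + (fun z => - ξ z) y := by
      funext z
      ring
    rw [e2, av5, av6 ξ, av2 (fun z => μ₂ z - μ₂ (i D.B⁻¹ z))
      (fun y => by
        change μ₂ (i D.a y) - μ₂ (i D.B⁻¹ (i D.a y)) = _
        rw [m2a, n2a])
      (fun y => by
        change μ₂ (i D.a3 y) - μ₂ (i D.B⁻¹ (i D.a3 y)) = _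
        rw [m23, n23]), hX, hK]
    ring
  have S2 : ∑ y, (μ₁ y - μ₁ (i D.B⁻¹ y)) * ξ y = ∑ y, (μ₁ y - μ₁ (i D.B⁻¹ y)) * X y := by
    have e1 : ∀ y, (μ₁ y - μ₁ (i D.B⁻¹ y)) * ξ y =
        ξ y * (fun z => μ₁ z - μ₁ (i D.B⁻¹ z)) y := fun y => mul_comm _ _
    have g1 : ∀ y, (fun z => μ₁ z - μ₁ (i D.B⁻¹ z)) (i D.a y) =
        (fun z => μ₁ z - μ₁ (i D.B⁻¹ z)) y := fun y => by
      change μ₁ (i D.a y) - μ₁ (i D.B⁻¹ (i D.a y)) = _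
      rw [m1a, n1a]
    have g2 : ∀ y, (fun z => μ₁ z - μ₁ (i D.B⁻¹ z)) (i D.a3 y) =
        (fun z => μ₁ z - μ₁ (i D.B⁻¹ z)) y := fun y => by
      change μ₁ (i D.a3 y) - μ₁ (i D.B⁻¹ (i D.a3 y)) = _
      rw [m13, n13]
    rw [Finset.sum_congr rfl fun y _ => e1 y, av3 ξ _ hξa g2]
    refine Finset.sum_congr rfl fun y _ => ?_
    rw [av2 (fun z => μ₁ z - μ₁ (i D.B⁻¹ z)) g1 g2, hX]
    ring
  have fin : ∑ y, (μ₂ (i D.B y) - μ₂ y - ξ (i D.B y)) * Ψ y -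
      ∑ y, (μ₁ y - μ₁ (i D.B⁻¹ y)) * ξ y +
      ∑ y, ((μ₁ y - μ₁ (i D.B⁻¹ y)) * (μ₂ y - μ₂ (i D.B⁻¹ y)) + η y * ζ y) =
      ∑ y, (η y - η₀ y) * ζ y + ∑ y, (ζ y - ζ₀ y) * η₀ y := by
    rw [S1, S2, ← Finset.sum_sub_distrib, ← Finset.sum_add_distrib, ← Finset.sum_add_distrib]
    refine Finset.sum_congr rfl fun y _ => ?_
    rw [hη₀, hζ₀]
    ring
  rw [fin]
  exact R.add_mem I1 I2

end Pool.Agent.SOR.H62
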